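import Pool.Agent.H16.CX.Code

/-!
# (COM) the set `YY` is a countable intersection of finitely supported Borel sets
-/

set_option autoImplicit false

open Set Topology Filter MeasureTheory

namespace Pool.Agent.H33.CX

open Pool.Agent.H16.CX Pool.Agent.H72.UV

lemma continuous_cz {X : Type} [MetricSpace X] (R : RS X) (x0 : X) (l : List ℕ) :
    Continuous fun z => cz R x0 z l := by
  unfold cz
  by_cases hl : l.Nodup
  · simp only [dif_pos hl]
    exact R.cont _
  · simp only [dif_neg hl]
    exact continuous_const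

lemma isClosed_FE {X : Type} [MetricSpace X] (R : RS X) : IsClosed (FE R) := by
  have h : FE R = ⋂ g : {g : Equiv.Perm ℕ // ∀ i, g (2 * i) = 2 * i},
      {z | R.res (pe g.1) z = z} := by
    ext z
    simp only [FE, Set.mem_iInter]
    constructor
    · intro h g
      exact h g.1 g.2
    · intro h g hg
      exact h ⟨g, hg⟩
  rw [h]
  exact isClosed_iInter fun g => isClosed_eq (R.cont _) continuous_id

/-- the points that look like a point of `YY` on the lists with entries below `n` -/
def AN {X : Type} [MetricSpace X] (R : RS X) (x0 : X) (n : ℕ) : Set (Str ℕ X) :=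
  {c | ∃ z ∈ FE R, ∀ l : List ℕ, (∀ x ∈ l, x < n) → c l = cz R x0 z l}

theorem pf_com : T_COM := by
  intro X _ _ _ _ R x0
  have : SecondCountableTopology X := EMetric.secondCountable_of_sigmaCompact X
  have hFEc : IsCompact (FE R) := (isClosed_FE R).isCompact
  refine ⟨AN R x0, fun n => ⟨?_, ?_⟩, ?_⟩
  · obtain ⟨r, hr⟩ : ∃ r : Str ℕ X → ({l : List ℕ // ∀ x ∈ l, x < n} → X),
        r = fun (c : Str ℕ X) (l : {l : List ℕ // ∀ x ∈ l, x < n}) => c l.1 := ⟨_, rfl⟩
    have hrm : Measurable r := by
      rw [hr]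
      exact measurable_pi_lambda _ fun l => measurable_pi_apply l.1
    obtain ⟨q, hq⟩ : ∃ q : X → ({l : List ℕ // ∀ x ∈ l, x < n} → X),
        q = fun (z : X) (l : {l : List ℕ // ∀ x ∈ l, x < n}) => cz R x0 z l.1 := ⟨_, rfl⟩
    have hqc : Continuous q := by
      rw [hq]
      exact continuous_pi fun l => continuous_cz R x0 l.1
    have hK : MeasurableSet (q '' FE R) := (hFEc.image hqc).isClosed.measurableSet
    have hA : AN R x0 n = r ⁻¹' (q '' FE R) := by
      ext c
      constructor
      · rintro ⟨z, hz, h⟩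
        refine ⟨z, hz, ?_⟩
        rw [hr, hq]
        funext l
        exact (h l.1 l.2).symm
      · rintro ⟨z, hz, h⟩
        rw [hr, hq] at h
        exact ⟨z, hz, fun l hl => (congrFun h ⟨l, hl⟩).symm⟩
    rw [hA]
    exact hrm hK
  · refine ⟨Finset.range n, fun c d h => ?_⟩
    have h1 : ∀ l : List ℕ, (∀ x ∈ l, x < n) → c l = d l := fun l hl =>
      h l fun x hx => Finset.mem_range.2 (hl x hx)
    constructor
    · rintro ⟨z, hz, h2⟩
      exact ⟨z, hz, fun l hl => (h1 l hl).symm.trans (h2 l hl)⟩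
    · rintro ⟨z, hz, h2⟩
      exact ⟨z, hz, fun l hl => (h1 l hl).trans (h2 l hl)⟩
  · ext c
    rw [Set.mem_iInter]
    constructor
    · rintro ⟨z, hz, rfl⟩ n
      exact ⟨z, hz, fun l _ => rfl⟩
    · intro h
      choose z hz hz2 using h
      obtain ⟨w, hw, φ, hφ, hlim⟩ := hFEc.tendsto_subseq hz
      refine ⟨w, hw, ?_⟩
      funext l
      obtain ⟨N, hN⟩ : ∃ N : ℕ, ∀ x ∈ l, x < N :=
        ⟨l.sum + 1, fun x hx => Nat.lt_succ_of_le (List.le_sum_of_mem hx)⟩
      have h1 : Tendsto (fun n => cz R x0 (z (φ n)) l) atTop (𝓝 (cz R x0 w l)) :=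
        ((continuous_cz R x0 l).tendsto w).comp hlim
      have h2 : ∀ᶠ n in atTop, c l = cz R x0 (z (φ n)) l := by
        filter_upwards [eventually_ge_atTop N] with n hn
        exact hz2 (φ n) l fun x hx => lt_of_lt_of_le (hN x hx) (hn.trans (hφ.id_le n))
      exact tendsto_nhds_unique (tendsto_const_nhds.congr' h2) h1

end Pool.Agent.H33.CX
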