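import Pool.Agent.H76.SD.Targets2
import Pool.Agent.H58.LP.PAR

/-!
Module PA: choice of the parameters, constraints of bounded dimension.
-/

set_option autoImplicit false

namespace Pool.Agent.H33.CX

open Finset Filter Pool.Agent.H1.LP Pool.Agent.H58.LP Pool.Agent.H76.CX

/-- the last item -/
lemma pa_last (E A n s t g B m : ℕ) (ε W : ℝ) (hE : 16 ≤ E) (hε : 0 < ε)
    (hEε : 40 / ε ≤ E) (hs : 1 ≤ s) (hg : g = 2 * s)
    (hB : B = n / (4 * E * g))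
    (c1 : (2 : ℝ) * E * (4 * E + 1) ≤ g)
    (c2 : (5 : ℝ) + (A + 2) * s + t ≤ n / (8 * (E : ℝ) ^ 2))
    (c3 : (4 : ℝ) / ε ≤ s)
    (c4 : (t : ℝ) + 6 + (A + 1) * s ≤ ε / 2 * n)
    (hm : m ≤ 2 ^ (A * s)) (hW : 0 ≤ W)
    (hx : (1 / 2 : ℝ) ^ t ≤ 8 * m * eta E g B + 12 * m * vsi E g B * (4 / 3 * (2 ^ s + 1) * W)) :
    (2 : ℝ) ^ ((1 - ε) * n) ≤ W := by
  have hE0 : (16 : ℝ) ≤ E := by exact_mod_cast hE
  have hE1 : (0 : ℝ) < E := by linarith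
  have hs0 : (1 : ℝ) ≤ s := by exact_mod_cast hs
  have hgs : (g : ℝ) = 2 * s := by rw [hg]; push_cast; ring
  have hg1 : 1 ≤ g := by omega
  have hd : 0 < 4 * E * g := by positivity
  have hb1 : (B : ℝ) * (4 * E * g) ≤ n := by
    have : B * (4 * E * g) ≤ n := by
      rw [hB]
      exact Nat.div_mul_le_self n _
    exact_mod_cast this
  have hb2 : (n : ℝ) ≤ ((B : ℝ) + 1) * (4 * E * g) := by
    have : n ≤ (B + 1) * (4 * E * g) := by
      rw [hB, mul_comm]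
      exact (Nat.lt_mul_div_succ n hd).le
    exact_mod_cast this
  have ht1 : (B : ℝ) ≤ E * (((B / E : ℕ) : ℝ) + 1) := by
    have : B ≤ E * (B / E + 1) := (Nat.lt_mul_div_succ B (by omega)).le
    exact_mod_cast this
  have ht2 : (E : ℝ) * ((B / E : ℕ) : ℝ) ≤ B := by
    have : E * (B / E) ≤ B := Nat.mul_div_le B E
    exact_mod_cast this
  have h9 : 9 * (B / E) ≤ B := by
    have h1 : 9 * (B / E) ≤ E * (B / E) := Nat.mul_le_mul_right _ (by omega)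
    exact h1.trans (Nat.mul_div_le B E)
  have hcast : ((B - 9 * (B / E) + 1 : ℕ) : ℝ) = (B : ℝ) - 9 * ((B / E : ℕ) : ℝ) + 1 := by
    rw [Nat.cast_add, Nat.cast_sub h9]
    push_cast
    ring
  have hB0 : (0 : ℝ) ≤ B := Nat.cast_nonneg B
  have hn0 : (0 : ℝ) ≤ n := Nat.cast_nonneg n
  have b1 := exp_eta n B g E ((B / E : ℕ) : ℝ) (by linarith) hB0 c1 hb2 ht1
  have b2 := exp_vsi n B g E ((B / E : ℕ) : ℝ) hE0 hB0 (by rw [hgs]; linarith) hn0 hb1 hb2 ht2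
  have hmr : (m : ℝ) ≤ (2 : ℝ) ^ ((A : ℝ) * s) := by
    have h2 : ((2 : ℝ) ^ ((A : ℝ) * s)) = (2 ^ (A * s) : ℕ) := by
      rw [← Nat.cast_mul, Real.rpow_natCast]
      push_cast
      rfl
    rw [h2]
    exact_mod_cast hm
  have hm0 : (0 : ℝ) ≤ m := Nat.cast_nonneg m
  have heta : eta E g B ≤ (2 : ℝ) ^ (1 + (g : ℝ) - n / (8 * (E : ℝ) ^ 2)) := by
    rw [eta_eq]
    exact Real.rpow_le_rpow_of_exponent_le (by norm_num) b1
  have heta0 : 0 ≤ eta E g B := by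
    rw [eta_eq]
    positivity
  have hvsi : vsi E g B ≤ (2 : ℝ) ^ (2 * (n : ℝ) / g - (1 - 10 / (E : ℝ)) * n) := by
    rw [vsi_eq, hcast]
    exact Real.rpow_le_rpow_of_exponent_le (by norm_num) b2
  have hvsi0 : 0 ≤ vsi E g B := by
    rw [vsi_eq]
    positivity
  have hhalf : (1 / 2 : ℝ) ^ t = (2 : ℝ) ^ (-(t : ℝ)) := by
    rw [Real.rpow_neg two_pos.le, Real.rpow_natCast, one_div, inv_pow]
  have hhalf' : 1 / 2 * (2 : ℝ) ^ (-(t : ℝ)) = (2 : ℝ) ^ (-(t : ℝ) - 1) := by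
    rw [Real.rpow_sub two_pos, Real.rpow_one]
    ring
  -- first term
  have f1 : 8 * m * eta E g B ≤ (2 : ℝ) ^ (-(t : ℝ) - 1) := by
    have e4 : (m : ℝ) * eta E g B ≤ (2 : ℝ) ^ ((A : ℝ) * s) *
        (2 : ℝ) ^ (1 + (g : ℝ) - n / (8 * (E : ℝ) ^ 2)) :=
      mul_le_mul hmr heta heta0 (by positivity)
    have e3 : (2 : ℝ) ^ (3 : ℝ) = 8 := by
      rw [show (3 : ℝ) = ((3 : ℕ) : ℝ) by norm_num, Real.rpow_natCast]
      norm_num
    calc 8 * m * eta E g B = (2 : ℝ) ^ (3 : ℝ) * (m * eta E g B) := by rw [e3]; ring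
      _ ≤ (2 : ℝ) ^ (3 : ℝ) * ((2 : ℝ) ^ ((A : ℝ) * s) *
          (2 : ℝ) ^ (1 + (g : ℝ) - n / (8 * (E : ℝ) ^ 2))) :=
          mul_le_mul_of_nonneg_left e4 (by positivity)
      _ ≤ (2 : ℝ) ^ (-(t : ℝ) - 1) := by
          rw [← Real.rpow_add two_pos, ← Real.rpow_add two_pos]
          apply Real.rpow_le_rpow_of_exponent_le (by norm_num)
          rw [hgs]
          linarith
  have f2 : (2 : ℝ) ^ (-(t : ℝ) - 1) ≤ 16 * m * vsi E g B * (2 ^ s + 1) * W := by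
    rw [hhalf] at hx
    have e5 : 12 * m * vsi E g B * (4 / 3 * (2 ^ s + 1) * W) =
      16 * m * vsi E g B * (2 ^ s + 1) * W := by ring
    rw [e5] at hx
    rw [← hhalf'] at f1 ⊢
    linarith
  have f3 : 16 * m * vsi E g B * (2 ^ s + 1) ≤
      (2 : ℝ) ^ (4 + A * s + (2 * (n : ℝ) / g - (1 - 10 / (E : ℝ)) * n) + (s + 1)) := by
    have e1 : (m : ℝ) * vsi E g B ≤ (2 : ℝ) ^ ((A : ℝ) * s) *
        (2 : ℝ) ^ (2 * (n : ℝ) / g - (1 - 10 / (E : ℝ)) * n) :=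
      mul_le_mul hmr hvsi hvsi0 (by positivity)
    have e2 : (16 : ℝ) = (2 : ℝ) ^ (4 : ℝ) := by
      rw [show (4 : ℝ) = ((4 : ℕ) : ℝ) by norm_num, Real.rpow_natCast]
      norm_num
    have e6 : (2 : ℝ) ^ s + 1 ≤ (2 : ℝ) ^ ((s : ℝ) + 1) := by
      rw [Real.rpow_add two_pos, Real.rpow_natCast, Real.rpow_one]
      have : (1 : ℝ) ≤ 2 ^ s := one_le_pow₀ (by norm_num)
      linarith
    calc 16 * m * vsi E g B * (2 ^ s + 1) = (2 : ℝ) ^ (4 : ℝ) * (m * vsi E g B) * (2 ^ s + 1) := by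
          rw [← e2]; ring
      _ ≤ (2 : ℝ) ^ (4 : ℝ) * ((2 : ℝ) ^ ((A : ℝ) * s) *
        (2 : ℝ) ^ (2 * (n : ℝ) / g - (1 - 10 / (E : ℝ)) * n)) * (2 : ℝ) ^ ((s : ℝ) + 1) := by
          refine mul_le_mul (mul_le_mul_of_nonneg_left e1 (by positivity)) e6 (by positivity)
            (by positivity)
      _ = _ := by
          rw [← Real.rpow_add two_pos, ← Real.rpow_add two_pos, ← Real.rpow_add two_pos]
          congr 1
          ring
  have f4 : (2 : ℝ) ^ (-(t : ℝ) - 1) ≤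
      (2 : ℝ) ^ (4 + A * s + (2 * (n : ℝ) / g - (1 - 10 / (E : ℝ)) * n) + (s + 1)) * W :=
    f2.trans (mul_le_mul_of_nonneg_right f3 hW)
  have f5 : (2 : ℝ) ^ (4 + A * s + (2 * (n : ℝ) / g - (1 - 10 / (E : ℝ)) * n) + (s + 1)) *
      (2 : ℝ) ^ ((1 - ε) * n) ≤ (2 : ℝ) ^ (-(t : ℝ) - 1) := by
    rw [← Real.rpow_add two_pos]
    apply Real.rpow_le_rpow_of_exponent_le (by norm_num)
    have g1 : 10 / (E : ℝ) ≤ ε / 4 := by
      rw [div_le_div_iff₀ hE1 (by norm_num)]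
      rw [div_le_iff₀ hε] at hEε
      linarith
    have g2 : 10 / (E : ℝ) * n ≤ ε / 4 * n := mul_le_mul_of_nonneg_right g1 hn0
    have g3 : 2 * (n : ℝ) / g ≤ ε / 4 * n := by
      rw [hgs, div_le_iff₀ (by linarith)]
      rw [div_le_iff₀ hε] at c3
      have h10 : (1 : ℝ) ≤ s * ε / 4 := by linarith
      have : (2 : ℝ) * n * 1 ≤ 2 * n * (s * ε / 4) := mul_le_mul_of_nonneg_left h10 (by linarith)
      linarith
    have g8 : (1 - 10 / (E : ℝ)) * n = n - 10 / (E : ℝ) * n := by ring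
    have g9 : (1 - ε) * n = n - ε * n := by ring
    rw [g8, g9]
    linarith
  have f6 : 0 < (2 : ℝ) ^ (4 + A * s + (2 * (n : ℝ) / g - (1 - 10 / (E : ℝ)) * n) + (s + 1)) := by
    positivity
  exact le_of_mul_le_mul_left (f5.trans f4) f6

/-- the main inequality -/
lemma pa_main (E K n s g B M0 : ℕ) (hE : 16 ≤ E) (hs : 3 ≤ s) (hg : g = 2 * s) (hn : n ≤ 2 ^ s)
    (hB : B * (4 * E * g) ≤ n) (hK : 8 * E * K * s ≤ n) (hM : M0 = 4 * (2 ^ s + 1) * 2 ^ n) :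
    (2 ^ 2 ^ s * (2 ^ 2 ^ s * (M0 + 1) ^ (2 ^ s + 1) +
          2 * (4 * E * B * 2 ^ (4 * E * g * K)) + 1) *
        2 ^ (4 * E * g * B) + 1) * (2 ^ (4 * E + 1)) ^ B < 4 ^ 2 ^ (2 * s + 5) := by
  obtain ⟨X, hX⟩ : ∃ X : ℕ, X = 2 ^ s := ⟨_, rfl⟩
  have hX8 : 8 ≤ X := by
    rw [hX]
    calc 8 = 2 ^ 3 := by norm_num
      _ ≤ 2 ^ s := Nat.pow_le_pow_right (by norm_num) hs
  have hsX : s + 4 ≤ X := by
    rw [hX]
    clear hX hX8 hn hB hK hM hg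
    induction s, hs using Nat.le_induction with
    | base => norm_num
    | succ s _ ih =>
      rw [pow_succ]
      omega
  have h2s : 2 ^ (2 * s + 5) = 32 * X ^ 2 := by
    rw [hX, pow_add, mul_comm 2 s, pow_mul]
    ring
  rw [h2s, ← hX]
  rw [← hX] at hn hM
  have e8 : 4 * E * g * B ≤ X := by
    calc 4 * E * g * B = B * (4 * E * g) := by ring
      _ ≤ n := hB
      _ ≤ X := hn
  have hB4 : 4 * E * B ≤ X := by
    refine le_trans ?_ e8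
    calc 4 * E * B = 4 * E * 1 * B := by ring
      _ ≤ 4 * E * g * B := Nat.mul_le_mul_right _ (Nat.mul_le_mul_left _ (by omega))
  have e9 : (4 * E + 1) * B ≤ X := by
    refine le_trans ?_ e8
    apply Nat.mul_le_mul_right
    have : 4 * E * 2 ≤ 4 * E * g := Nat.mul_le_mul_left _ (by omega)
    omega
  have eK : 4 * E * g * K ≤ X := by
    calc 4 * E * g * K = 8 * E * K * s := by rw [hg]; ring
      _ ≤ n := hK
      _ ≤ X := hn
  have hXX : X ≤ 2 ^ X := Nat.lt_two_pow_self.le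
  have m1 : M0 + 1 ≤ 2 ^ (2 * X) := by
    have h1 : 4 * (X + 1) * 2 ^ n + 1 ≤ 2 ^ (n + s + 4) := by
      have h2 : 2 ^ (n + s + 4) = 16 * X * 2 ^ n := by
        rw [hX, pow_add, pow_add]; ring
      rw [h2]
      have h3 : 1 ≤ 2 ^ n := Nat.one_le_two_pow
      nlinarith
    rw [hM]
    exact h1.trans (Nat.pow_le_pow_right (by norm_num) (by omega))
  have m2 : (M0 + 1) ^ (X + 1) ≤ 2 ^ (4 * X ^ 2) := by
    calc (M0 + 1) ^ (X + 1) ≤ (2 ^ (2 * X)) ^ (X + 1) := Nat.pow_le_pow_left m1 _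
      _ = 2 ^ (2 * X * (X + 1)) := by rw [← pow_mul]
      _ ≤ 2 ^ (4 * X ^ 2) := Nat.pow_le_pow_right (by norm_num) (by nlinarith)
  have m3 : 2 * (4 * E * B * 2 ^ (4 * E * g * K)) + 1 ≤ 2 ^ (2 * X) := by
    have h1 : 4 * E * B * 2 ^ (4 * E * g * K) ≤ X * 2 ^ X :=
      Nat.mul_le_mul hB4 (Nat.pow_le_pow_right (by norm_num) eK)
    have h2 : 2 * X + 1 ≤ 2 ^ X := by
      have h3 : 2 ^ X = 2 ^ (X - 2) * 4 := by
        rw [show (4 : ℕ) = 2 ^ 2 by norm_num, ← pow_add]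
        congr 1
        omega
      have h4 : X - 2 < 2 ^ (X - 2) := Nat.lt_two_pow_self
      omega
    calc 2 * (4 * E * B * 2 ^ (4 * E * g * K)) + 1 ≤ 2 * (X * 2 ^ X) + 1 := by omega
      _ ≤ 2 * (X * 2 ^ X) + 1 * 2 ^ X := by
          have : 1 ≤ 2 ^ X := Nat.one_le_two_pow
          omega
      _ = (2 * X + 1) * 2 ^ X := by ring
      _ ≤ 2 ^ X * 2 ^ X := Nat.mul_le_mul_right _ h2
      _ = 2 ^ (2 * X) := by rw [← pow_add]; congr 1; ring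
  have m4 : 2 ^ X * (M0 + 1) ^ (X + 1) + 2 * (4 * E * B * 2 ^ (4 * E * g * K)) + 1 ≤
      2 ^ (X + 4 * X ^ 2 + 1) := by
    have h1 : 2 ^ X * (M0 + 1) ^ (X + 1) ≤ 2 ^ (X + 4 * X ^ 2) := by
      rw [pow_add 2 X (4 * X ^ 2)]
      exact Nat.mul_le_mul_left _ m2
    have h2 : 2 ^ (2 * X) ≤ 2 ^ (X + 4 * X ^ 2) := Nat.pow_le_pow_right (by norm_num) (by nlinarith)
    rw [pow_succ 2 (X + 4 * X ^ 2)]
    omega
  have m5 : 2 ^ X * (2 ^ X * (M0 + 1) ^ (X + 1) + 2 * (4 * E * B * 2 ^ (4 * E * g * K)) + 1) *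
      2 ^ (4 * E * g * B) + 1 ≤ 2 ^ (X + (X + 4 * X ^ 2 + 1) + X + 1) := by
    have h1 : 2 ^ X * (2 ^ X * (M0 + 1) ^ (X + 1) + 2 * (4 * E * B * 2 ^ (4 * E * g * K)) + 1) *
      2 ^ (4 * E * g * B) ≤ 2 ^ (X + (X + 4 * X ^ 2 + 1) + X) := by
      rw [pow_add 2 (X + (X + 4 * X ^ 2 + 1)) X, pow_add 2 X (X + 4 * X ^ 2 + 1)]
      exact Nat.mul_le_mul (Nat.mul_le_mul_left _ m4) (Nat.pow_le_pow_right (by norm_num) e8)
    rw [pow_succ 2 (X + (X + 4 * X ^ 2 + 1) + X)]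
    have : 1 ≤ 2 ^ (X + (X + 4 * X ^ 2 + 1) + X) := Nat.one_le_two_pow
    omega
  have m6 : (2 ^ (4 * E + 1)) ^ B ≤ 2 ^ X := by
    rw [← pow_mul]
    exact Nat.pow_le_pow_right (by norm_num) e9
  calc _ ≤ 2 ^ (X + (X + 4 * X ^ 2 + 1) + X + 1) * 2 ^ X := Nat.mul_le_mul m5 m6
    _ = 2 ^ (X + (X + 4 * X ^ 2 + 1) + X + 1 + X) := by rw [← pow_add]
    _ < 2 ^ (2 * (32 * X ^ 2)) := by
        apply Nat.pow_lt_pow_right (by norm_num)
        nlinarith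
    _ = 4 ^ (32 * X ^ 2) := by
        rw [pow_mul]
        norm_num

theorem pa : T_PA := by
  intro ε hε
  obtain ⟨E, hEd⟩ : ∃ E : ℕ, E = max 16 ⌈40 / ε⌉₊ := ⟨_, rfl⟩
  have hE16 : 16 ≤ E := by rw [hEd]; exact le_max_left _ _
  have hEε : 40 / ε ≤ (E : ℝ) := by
    rw [hEd]
    exact (Nat.le_ceil _).trans (by exact_mod_cast le_max_right _ _)
  have hE1 : (16 : ℝ) ≤ E := by exact_mod_cast hE16
  have hE0 : (0 : ℝ) < E := by linarith
  obtain ⟨K, hK⟩ : ∃ K : ℕ, K = kk E := ⟨_, rfl⟩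
  obtain ⟨A, hA⟩ : ∃ A : ℕ, A = 8 * E * K + 1 := ⟨_, rfl⟩
  obtain ⟨c, hc⟩ : ∃ c : ℕ, c = 16 * E ^ 2 * (A + 7) + ⌈4 * (A + 7) / ε⌉₊ + 16 * E * K + A :=
    ⟨_, rfl⟩
  obtain ⟨S0, hS0⟩ : ∃ S0 : ℕ, S0 = 2 * E * (4 * E + 1) + (4 * E + 3) + 4 + ⌈4 / ε⌉₊ := ⟨_, rfl⟩
  refine ⟨E, c, 2 ^ S0, hE16, ?_, ?_⟩
  · rw [div_le_iff₀ hE0]
    rw [div_le_iff₀ hε] at hEε
    linarith
  intro n s t hn0 hns hcs hct
  have hSs : S0 ≤ s := (Nat.pow_le_pow_iff_right (by norm_num)).1 (hn0.trans hns)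
  obtain ⟨g, hg⟩ : ∃ g : ℕ, g = 2 * s := ⟨_, rfl⟩
  obtain ⟨B, hB⟩ : ∃ B : ℕ, B = n / (4 * E * g) := ⟨_, rfl⟩
  have hd : 0 < 4 * E * g := by
    have : 1 ≤ g := by omega
    positivity
  have hBn : B * (4 * E * g) ≤ n := by rw [hB]; exact Nat.div_mul_le_self n _
  have hBn1 : B ≤ n := by rw [hB]; exact Nat.div_le_self _ _
  have h16 : 16 * E * K * s ≤ n := le_trans (Nat.mul_le_mul_right s (by omega)) hcs
  have h8 : 8 * E * K * s ≤ n := le_trans (Nat.mul_le_mul_right s (by nlinarith)) h16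
  have hAs : A * s ≤ c * s := Nat.mul_le_mul_right s (by omega)
  have hbig : 4 * E * B * 2 ^ (4 * E * g * K) ≤ 2 ^ (A * s) := by
    have e1 : 4 * E * B ≤ 2 ^ s := by
      refine le_trans ?_ (hBn.trans hns)
      calc 4 * E * B = B * (4 * E * 1) := by ring
        _ ≤ B * (4 * E * g) := Nat.mul_le_mul_left _ (Nat.mul_le_mul_left _ (by omega))
    calc 4 * E * B * 2 ^ (4 * E * g * K) ≤ 2 ^ s * 2 ^ (4 * E * g * K) := Nat.mul_le_mul_right _ e1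
      _ = 2 ^ (A * s) := by
          rw [← pow_add, hg, hA]
          congr 1
          ring
  refine ⟨g, 2 ^ (2 * s + 5), B, 4 * (2 ^ s + 1) * 2 ^ n, by omega, by positivity, ?_, hBn, ?_, ?_,
    le_rfl, ?_, ?_, ?_, ?_⟩
  · -- 2 kk <= B
    rw [← hK, hB, Nat.le_div_iff_mul_le hd]
    calc 2 * K * (4 * E * g) = 16 * E * K * s := by
          rw [hg]
          ring
      _ ≤ n := h16
  · -- 4 2^(4E+1) B <= 2^g
    calc 4 * 2 ^ (4 * E + 1) * B ≤ 2 ^ s * 2 ^ s := by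
          refine Nat.mul_le_mul ?_ (hBn1.trans hns)
          calc 4 * 2 ^ (4 * E + 1) = 2 ^ (4 * E + 3) := by ring
            _ ≤ 2 ^ s := Nat.pow_le_pow_right (by norm_num) (by omega)
      _ = 2 ^ g := by rw [← pow_add, hg]; congr 1; ring
  · -- 8 s' <= 4^g
    calc 8 * 2 ^ (2 * s + 5) = 2 ^ (2 * s + 8) := by ring
      _ ≤ 2 ^ (2 * g) := Nat.pow_le_pow_right (by norm_num) (by omega)
      _ = 4 ^ g := by rw [pow_mul]; norm_num
  · have h1 := pa_main E K n s g B _ hE16 (by omega) hg hns hBn h8 rfl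
    rw [hK] at h1
    exact_mod_cast h1
  · rw [← hK]
    exact hbig.trans (Nat.pow_le_pow_right (by norm_num) hAs)
  · rw [← hK]
    calc 4 * E * g * K = 8 * E * K * s := by rw [hg]; ring
      _ ≤ A * s := Nat.mul_le_mul_right s (by omega)
      _ ≤ c * s := hAs
  · intro m W hW hm hx
    rw [← hK] at hm
    have hs1 : 1 ≤ s := by omega
    have hsr : (1 : ℝ) ≤ s := by exact_mod_cast hs1
    have hcr : (c : ℝ) = 16 * (E : ℝ) ^ 2 * (A + 7) + (⌈4 * ((A : ℝ) + 7) / ε⌉₊ : ℝ) +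
        16 * E * K + A := by
      rw [hc]
      push_cast
      ring
    have hceil := Nat.le_ceil (4 * ((A : ℝ) + 7) / ε)
    have hA0 : (0 : ℝ) ≤ A := Nat.cast_nonneg A
    have hK0 : (0 : ℝ) ≤ K := Nat.cast_nonneg K
    have hn0' : (0 : ℝ) ≤ n := Nat.cast_nonneg n
    have ht0 : (0 : ℝ) ≤ t := Nat.cast_nonneg t
    have hcsr : (c : ℝ) * s ≤ n := by exact_mod_cast hcs
    have hctr : (c : ℝ) * t ≤ n := by exact_mod_cast hct
    have hEK : 0 ≤ 16 * (E : ℝ) * K := by positivity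
    have hc1 : 16 * (E : ℝ) ^ 2 * (A + 7) ≤ c := by
      rw [hcr]
      have : 0 ≤ 4 * ((A : ℝ) + 7) / ε := by positivity
      linarith
    have hc2 : 4 * ((A : ℝ) + 7) / ε ≤ c := by
      rw [hcr]
      have : 0 ≤ 16 * (E : ℝ) ^ 2 * (A + 7) := by positivity
      linarith
    have q1 : ((A : ℝ) + 7) * s ≤ n / (16 * (E : ℝ) ^ 2) := by
      rw [le_div_iff₀ (by positivity)]
      calc ((A : ℝ) + 7) * s * (16 * (E : ℝ) ^ 2) = 16 * (E : ℝ) ^ 2 * (A + 7) * s := by ring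
        _ ≤ (c : ℝ) * s := mul_le_mul_of_nonneg_right hc1 (by linarith)
        _ ≤ (n : ℝ) := hcsr
    have q2 : (t : ℝ) ≤ n / (16 * (E : ℝ) ^ 2) := by
      rw [le_div_iff₀ (by positivity)]
      calc (t : ℝ) * (16 * (E : ℝ) ^ 2) = 16 * (E : ℝ) ^ 2 * 1 * t := by ring
        _ ≤ 16 * (E : ℝ) ^ 2 * (A + 7) * t := by
            gcongr
            linarith
        _ ≤ (c : ℝ) * t := mul_le_mul_of_nonneg_right hc1 ht0
        _ ≤ (n : ℝ) := hctr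
    have q3 : ((A : ℝ) + 7) * s ≤ ε / 4 * n := by
      have h1 : (A : ℝ) + 7 ≤ ε / 4 * c := by
        rw [div_le_iff₀ hε] at hc2
        linarith
      calc ((A : ℝ) + 7) * s ≤ ε / 4 * c * s := mul_le_mul_of_nonneg_right h1 (by linarith)
        _ = ε / 4 * (c * s) := by ring
        _ ≤ ε / 4 * n := mul_le_mul_of_nonneg_left hcsr (by linarith)
    have q4 : (t : ℝ) ≤ ε / 4 * n := by
      have h1 : (A : ℝ) + 7 ≤ ε / 4 * c := by
        rw [div_le_iff₀ hε] at hc2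
        linarith
      calc (t : ℝ) = 1 * t := (one_mul _).symm
        _ ≤ (ε / 4 * c) * t := mul_le_mul_of_nonneg_right (by linarith) ht0
        _ = ε / 4 * (c * t) := by ring
        _ ≤ ε / 4 * n := mul_le_mul_of_nonneg_left hctr (by linarith)
    have hS : (S0 : ℝ) ≤ s := by exact_mod_cast hSs
    have hSr : (S0 : ℝ) = 2 * E * (4 * E + 1) + (4 * E + 3) + 4 + (⌈4 / ε⌉₊ : ℝ) := by
      rw [hS0]
      push_cast
      ring
    have hceil2 := Nat.le_ceil (4 / ε)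
    have hε4 : 0 ≤ 4 / ε := by positivity
    have hpos : 0 ≤ 2 * (E : ℝ) * (4 * E + 1) := by positivity
    refine pa_last E A n s t g B m ε W hE16 hε hEε hs1 hg hB ?_ ?_ ?_ ?_ (hm.trans hbig) hW hx
    · have : (g : ℝ) = 2 * s := by rw [hg]; push_cast; ring
      rw [this]
      linarith
    · have h2 : (n : ℝ) / (8 * (E : ℝ) ^ 2) = n / (16 * (E : ℝ) ^ 2) + n / (16 * (E : ℝ) ^ 2) := by
        field_simp
        ring
      rw [h2]
      nlinarith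
    · linarith
    · nlinarith

end Pool.Agent.H33.CX
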